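import Pool.Agent.Helper5.KZ.Stm3

set_option autoImplicit false

/-!
# Supports of the projections (piece WALL)
-/


namespace Pool.Agent.Helper4.KZ

open Pool.Agent.Helper5.KZ

section Gen

variable {k : Type} [DivisionRing k] {H : Type} [Group H] {ι κ : Type} [Fintype ι] [Fintype κ]
variable (Xm : Matrix ι κ (MonoidAlgebra k H)) (Ym : Matrix κ ι (MonoidAlgebra k H))

theorem prj_supp (X : Set H) (x : κ → MonoidAlgebra k H) (j : κ) (h : H)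
    (hh : (prj Xm Ym X x j).coeff h ≠ 0) : ∃ i y, (Xm i j).coeff y ≠ 0 ∧ h * y⁻¹ ∈ X := by
  unfold prj at hh
  obtain ⟨i, u, y, hu, hy, rfl⟩ := vecMul_coeff_ne _ hh
  refine ⟨i, y, hy, ?_⟩
  have := supV_resV X _ i u hu
  rwa [mul_inv_cancel_right]

theorem prj_compl [DecidableEq κ] (hYX : Ym * Xm = 1) (X : Set H) (x : κ → MonoidAlgebra k H) (j : κ) (h : H)
    (hh : (prj Xm Ym X x j).coeff h ≠ 0) :
    (x j).coeff h ≠ 0 ∨ (prj Xm Ym Xᶜ x j).coeff h ≠ 0 := by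
  by_contra hcon
  push Not at hcon
  have h1 := prj_union Xm Ym (X := X) (X' := Xᶜ) (fun h hX hX' => hX' hX) x
  rw [Set.union_compl_self, prj_univ Xm Ym hYX] at h1
  have h2 := congrFun h1 j
  rw [Pi.add_apply] at h2
  rw [h2, MonoidAlgebra.coeff_add, Finsupp.add_apply, hcon.2, add_zero] at hcon
  exact hh hcon.1

theorem fin_reps {H α : Type} [Inhabited H] (P : Finset α) (S : α → Set H) (𝓓 : Set H)
    (R : H → H → Prop) (hS : ∀ h ∈ 𝓓, ∃ p ∈ P, h ∈ S p)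
    (hR : ∀ p ∈ P, ∀ h ∈ S p, ∀ h' ∈ S p, R h h') :
    ∃ D : Finset H, ∀ h ∈ 𝓓, ∃ d ∈ D, R h d := by
  classical
  refine ⟨P.image fun p => if hne : (S p).Nonempty then hne.some else default, fun h hh => ?_⟩
  obtain ⟨p, hp, hhp⟩ := hS h hh
  have hne : (S p).Nonempty := ⟨h, hhp⟩
  refine ⟨_, Finset.mem_image_of_mem _ hp, ?_⟩
  rw [dif_pos hne]
  exact hR p hp h hhp _ hne.some_mem

end Gen

theorem core {k : Type} [DivisionRing k] {B H : Type} [Group B] [Group H] (f : B →* H) (t : H)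
    (A₁ A₂ : Subgroup B) (Hp : Set H)
    (right : ∀ (h : H) (b : B), h * f b ∈ Hp ↔ h ∈ Hp) (one : (1 : H) ∉ Hp) (tm : t ∈ Hp)
    (uo : ∀ (h : H) (b b' : B), (f b)⁻¹ * h ∈ Hp → (f b')⁻¹ * h ∈ Hp → b⁻¹ * b' ∈ A₂)
    (ui : ∀ (h : H) (b b' : B), t * (f b)⁻¹ * h ∉ Hp → t * (f b')⁻¹ * h ∉ Hp → b⁻¹ * b' ∈ A₁)
    (hl : ∀ E : Finset H, ∃ Wf : Finset H, E ⊆ Wf ∧ (1 : H) ∈ Wf ∧ ∀ g : H,
      (∃ w ∈ Wf, g⁻¹ * w ∈ Hp) → (∃ w ∈ Wf, g⁻¹ * w ∉ Hp) →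
      (∃ (w : H) (b : B), w ∈ Wf ∧ g = w * f b) ∧ (∃ (w : H) (b : B), w ∈ Wf ∧ g * t = w * f b))
    (ht2 : ∀ c : B, c ∈ A₂ → ∃ a : B, f c * t = t * f a)
    (ht1 : ∀ c : B, c ∈ A₁ → ∃ a : B, f c * t⁻¹ = t⁻¹ * f a)
    {ι κ : Type} [Fintype ι] [Fintype κ] [DecidableEq κ]
    (Xm : Matrix ι κ (MonoidAlgebra k H)) (Ym : Matrix κ ι (MonoidAlgebra k H)) (hYX : Ym * Xm = 1) :
    ∃ (𝓔 𝓓₂ 𝓓₁ : Set H) (E₀ D₂ D₁ : Finset H),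
      ((∀ b, ∀ h ∈ 𝓔, f b * h ∈ 𝓔) ∧
        (∀ h ∈ 𝓔, ∃ b, ∃ d ∈ E₀, h = f b * d) ∧
        (∀ i j h, (Xm i j).coeff h ≠ 0 → h ∈ 𝓔)) ∧
      (𝓓₂ ⊆ 𝓔 ∧ (∀ c ∈ A₂, ∀ h ∈ 𝓓₂, f c * h ∈ 𝓓₂) ∧
        (∀ h ∈ 𝓓₂, ∃ c ∈ A₂, ∃ d ∈ D₂, h = f c * d) ∧
        (∀ x : κ → MonoidAlgebra k H, SupV 𝓔 x → SupV 𝓓₂ (prj Xm Ym Hp x))) ∧
      (𝓓₁ ⊆ 𝓔 ∧ (∀ c ∈ A₁, ∀ h ∈ 𝓓₁, f c * h ∈ 𝓓₁) ∧
        (∀ h ∈ 𝓓₁, ∃ c ∈ A₁, ∃ d ∈ D₁, h = f c * d) ∧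
        (∀ x : κ → MonoidAlgebra k H, SupV 𝓔 x → SupV 𝓓₁ (prj Xm Ym {h | t * h ∉ Hp} x))) := by
  classical
  let E : Finset H := Finset.univ.biUnion fun i : ι => Finset.univ.biUnion fun j : κ =>
    (Xm i j).coeff.support.image fun h => h⁻¹
  have hE : ∀ i j h, (Xm i j).coeff h ≠ 0 → h⁻¹ ∈ E := by
    intro i j h hh
    refine Finset.mem_biUnion.2 ⟨i, Finset.mem_univ _, Finset.mem_biUnion.2 ⟨j, Finset.mem_univ _,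
      Finset.mem_image.2 ⟨h, Finsupp.mem_support_iff.2 hh, rfl⟩⟩⟩
  obtain ⟨Wf, hEW, h1W, hull⟩ := hl E
  let W : Set H := {g | ∃ (w : H) (b : B), w ∈ Wf ∧ g = w * f b}
  have hWb : ∀ g ∈ W, ∀ b : B, g * f b ∈ W := by
    rintro g ⟨w, b', hw, rfl⟩ b
    exact ⟨w, b' * b, hw, by rw [map_mul, mul_assoc]⟩
  have hWf : ∀ w ∈ Wf, w ∈ W := fun w hw => ⟨w, 1, hw, by rw [map_one, mul_one]⟩
  -- the three sets
  let EE : Set H := {h | h⁻¹ ∈ W}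
  let D2 : Set H := {h | h⁻¹ ∈ W ∧ h⁻¹ * t ∈ W}
  let D1 : Set H := {h | h⁻¹ * t⁻¹ ∈ W ∧ h⁻¹ ∈ W}
  have hEE : ∀ h ∈ EE, ∃ w ∈ Wf, ∃ b : B, h * w = f b := by
    rintro h ⟨w, b, hw, hh⟩
    refine ⟨w, hw, b⁻¹, ?_⟩
    have h2 : h = (w * f b)⁻¹ := by rw [← hh, inv_inv]
    rw [h2, mul_inv_rev, mul_assoc, inv_mul_cancel, mul_one, map_inv]
  have hD2 : ∃ D₂ : Finset H, ∀ h ∈ D2, ∃ d ∈ D₂, ∃ c ∈ A₂, h = f c * d := by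
    have : Inhabited H := ⟨1⟩
    refine fin_reps (Wf ×ˢ Wf) (fun p => {h | ∃ b b' : B, h⁻¹ = p.1 * f b ∧ h⁻¹ * t = p.2 * f b'})
      D2 (fun h d => ∃ c ∈ A₂, h = f c * d) ?_ ?_
    · rintro h ⟨⟨w, b, hw, h1⟩, ⟨w', b', hw', h2⟩⟩
      exact ⟨(w, w'), Finset.mem_product.2 ⟨hw, hw'⟩, b, b', h1, h2⟩
    · rintro ⟨w, w'⟩ _ h ⟨b, b', h1, h2⟩ h' ⟨b1, b1', h3, h4⟩
      simp only at h1 h2 h3 h4
      have e1 : h * h'⁻¹ = f (b⁻¹ * b1) := by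
        have : h = (w * f b)⁻¹ := by rw [← h1, inv_inv]
        rw [this, h3, map_mul, map_inv]
        group
      have e2 : t⁻¹ * (h * h'⁻¹) * t = f (b'⁻¹ * b1') := by
        have : t⁻¹ * (h * h'⁻¹) * t = (h⁻¹ * t)⁻¹ * (h'⁻¹ * t) := by group
        rw [this, h2, h4, map_mul, map_inv]
        group
      refine ⟨b⁻¹ * b1, ?_, ?_⟩
      · have h5 := uo t 1 (b⁻¹ * b1) (by
          rw [map_one, inv_one, one_mul]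
          exact tm) (by
          rw [← e1]
          have h6 : (h * h'⁻¹)⁻¹ * t = t * f (b'⁻¹ * b1')⁻¹ := by
            rw [map_inv, ← e2]
            group
          rw [h6, right]
          exact tm)
        simpa using h5
      · rw [← e1]
        group
  have hD1 : ∃ D₁ : Finset H, ∀ h ∈ D1, ∃ d ∈ D₁, ∃ c ∈ A₁, h = f c * d := by
    have : Inhabited H := ⟨1⟩
    refine fin_reps (Wf ×ˢ Wf) (fun p => {h | ∃ b b' : B, h⁻¹ * t⁻¹ = p.1 * f b ∧ h⁻¹ = p.2 * f b'})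
      D1 (fun h d => ∃ c ∈ A₁, h = f c * d) ?_ ?_
    · rintro h ⟨⟨w, b, hw, h1⟩, ⟨w', b', hw', h2⟩⟩
      exact ⟨(w, w'), Finset.mem_product.2 ⟨hw, hw'⟩, b, b', h1, h2⟩
    · rintro ⟨w, w'⟩ _ h ⟨b, b', h1, h2⟩ h' ⟨b1, b1', h3, h4⟩
      simp only at h1 h2 h3 h4
      have e1 : h * h'⁻¹ = f (b'⁻¹ * b1') := by
        have : h = (w' * f b')⁻¹ := by rw [← h2, inv_inv]
        rw [this, h4, map_mul, map_inv]
        group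
      have e2 : t * (h * h'⁻¹) * t⁻¹ = f (b⁻¹ * b1) := by
        have : t * (h * h'⁻¹) * t⁻¹ = (h⁻¹ * t⁻¹)⁻¹ * (h'⁻¹ * t⁻¹) := by group
        rw [this, h1, h3, map_mul, map_inv]
        group
      refine ⟨b'⁻¹ * b1', ?_, ?_⟩
      · have h5 := ui t⁻¹ 1 (b'⁻¹ * b1') (by
          rw [map_one, inv_one, mul_one, mul_inv_cancel]
          exact one) (by
          rw [← e1]
          have h6 : t * (h * h'⁻¹)⁻¹ * t⁻¹ = 1 * f (b⁻¹ * b1)⁻¹ := by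
            rw [map_inv, ← e2]
            group
          rw [h6, right]
          exact one)
        simpa using h5
      · rw [← e1]
        group
  obtain ⟨D₂, hD₂⟩ := hD2
  obtain ⟨D₁, hD₁⟩ := hD1
  refine ⟨EE, D2, D1, Wf.image fun w => w⁻¹, D₂, D₁, ⟨?_, ?_, ?_⟩, ⟨?_, ?_, ?_, ?_⟩, ?_, ?_, ?_, ?_⟩
  · intro b h hh
    show (f b * h)⁻¹ ∈ W
    rw [mul_inv_rev, ← map_inv]
    exact hWb _ hh _
  · intro h hh
    obtain ⟨w, hw, b, hb⟩ := hEE h hh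
    exact ⟨b, w⁻¹, Finset.mem_image_of_mem _ hw, by rw [← hb, mul_inv_cancel_right]⟩
  · intro i j h hh
    exact hWf _ (hEW (hE i j h hh))
  · exact fun h hh => hh.1
  · intro c hc h hh
    show (f c * h)⁻¹ ∈ W ∧ (f c * h)⁻¹ * t ∈ W
    rw [mul_inv_rev, ← map_inv]
    refine ⟨hWb _ hh.1 _, ?_⟩
    obtain ⟨a, ha⟩ := ht2 c⁻¹ (A₂.inv_mem hc)
    rw [mul_assoc, ha, ← mul_assoc]
    exact hWb _ hh.2 _
  · intro h hh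
    obtain ⟨d, hd, c, hc, he⟩ := hD₂ h hh
    exact ⟨c, hc, d, hd, he⟩
  · intro x hx j h hh
    obtain ⟨i, y, hy, hyX⟩ := prj_supp Xm Ym Hp x j h hh
    have hside1 : ∃ w ∈ Wf, (h⁻¹)⁻¹ * w ∈ Hp := ⟨y⁻¹, hEW (hE i j y hy), by rwa [inv_inv]⟩
    have hside2 : ∃ w ∈ Wf, (h⁻¹)⁻¹ * w ∉ Hp := by
      rcases prj_compl Xm Ym hYX Hp x j h hh with h0 | h0
      · obtain ⟨w, hw, b, hb⟩ := hEE h (hx j h h0)
        refine ⟨w, hw, ?_⟩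
        rw [inv_inv, hb, ← one_mul (f b), right]
        exact one
      · obtain ⟨i', y', hy', hyX'⟩ := prj_supp Xm Ym _ x j h h0
        exact ⟨y'⁻¹, hEW (hE i' j y' hy'), by rw [inv_inv]; exact hyX'⟩
    exact hull h⁻¹ hside1 hside2
  · exact fun h hh => hh.2
  · intro c hc h hh
    show (f c * h)⁻¹ * t⁻¹ ∈ W ∧ (f c * h)⁻¹ ∈ W
    rw [mul_inv_rev, ← map_inv]
    refine ⟨?_, hWb _ hh.2 _⟩
    obtain ⟨a, ha⟩ := ht1 c⁻¹ (A₁.inv_mem hc)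
    rw [mul_assoc, ha, ← mul_assoc]
    exact hWb _ hh.1 _
  · intro h hh
    obtain ⟨d, hd, c, hc, he⟩ := hD₁ h hh
    exact ⟨c, hc, d, hd, he⟩
  · intro x hx j h hh
    obtain ⟨i, y, hy, hyX⟩ := prj_supp Xm Ym _ x j h hh
    have hg : (h⁻¹ * t⁻¹)⁻¹ = t * h := by group
    have hside2 : ∃ w ∈ Wf, (h⁻¹ * t⁻¹)⁻¹ * w ∉ Hp := by
      refine ⟨y⁻¹, hEW (hE i j y hy), ?_⟩
      rw [hg, mul_assoc]
      exact hyX
    have hside1 : ∃ w ∈ Wf, (h⁻¹ * t⁻¹)⁻¹ * w ∈ Hp := by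
      rcases prj_compl Xm Ym hYX _ x j h hh with h0 | h0
      · obtain ⟨w, hw, b, hb⟩ := hEE h (hx j h h0)
        refine ⟨w, hw, ?_⟩
        rw [hg, mul_assoc, hb, right]
        exact tm
      · obtain ⟨i', y', hy', hyX'⟩ := prj_supp Xm Ym _ x j h h0
        refine ⟨y'⁻¹, hEW (hE i' j y' hy'), ?_⟩
        rw [hg, mul_assoc]
        have : ¬ (t * (h * y'⁻¹) ∉ Hp) := hyX'
        exact not_not.1 this
    obtain ⟨r1, r2⟩ := hull (h⁻¹ * t⁻¹) hside1 hside2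
    refine ⟨r1, ?_⟩
    rw [inv_mul_cancel_right] at r2
    exact r2

theorem t_WALL : S_WALL := by
  intro k _ B _ A₁ A₂ φ Hp hs ι κ _ _ _ Xm Ym hYX
  refine core (HNNExtension.of : B →* HNNExtension B A₁ A₂ φ) HNNExtension.t A₁ A₂ Hp hs.right
    hs.one hs.t_mem hs.unique_out hs.unique_in hs.hull ?_ ?_ Xm Ym hYX
  · intro c hc
    refine ⟨φ.symm ⟨c, hc⟩, ?_⟩
    have h1 := HNNExtension.t_mul_of (φ := φ) (φ.symm ⟨c, hc⟩)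
    rw [h1]
    simp
  · intro c hc
    refine ⟨φ ⟨c, hc⟩, ?_⟩
    have h1 := HNNExtension.t_mul_of (φ := φ) ⟨c, hc⟩
    rw [eq_inv_mul_iff_mul_eq, ← mul_assoc, h1, mul_assoc, mul_inv_cancel, mul_one]

end Pool.Agent.Helper4.KZ
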